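import Pool.Agent.X238.Vraag.Reg

/-!
# MP_7325c9_al: conjugacy geodesics in virtual RAAGs twisted by graph automorphisms

For every finite simple graph `Γ`, every automorphism `φ` of `Γ` and every `m ≥ 1` with `φ^m = 1`
(in particular `m` = the order of `φ`), the conjugacy geodesic language of
`A_φ = ⟨V, t | uv = vu ({u,v} an edge), t^m = 1, t⁻¹ v t = φ(v)⟩` over its standard generating set
`{v^{±1}} ∪ {t^{±1}}` is regular.
-/

namespace Pool.Agent.Results.MP_7325c9_al.ConjGeoRegular

open Pool.Agent.X238.Vraag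

theorem result {V : Type} [Finite V] (Γ : SimpleGraph V) (φ : Equiv.Perm V)
    (hφ : ∀ u v, Γ.Adj (φ u) (φ v) ↔ Γ.Adj u v) (m : ℕ) (hm0 : 0 < m) (hm : φ ^ m = 1) :
    (ConjGeo (Xhat Γ φ m)).IsRegular := by
  classical
  exact conjGeo_regular hφ hm hm0

end Pool.Agent.Results.MP_7325c9_al.ConjGeoRegular
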